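import Pool.Agent.W312.T3.Stm

/-!
# Tree 3-spanners of chordal graphs: gluing the partial certificates of the children
-/

set_option autoImplicit false

open Classical

namespace Pool.Agent.W494.T3

open Pool.Agent.W312.T3

section gg

variable {V : Type} [LinearOrder V] {p q : V} {s : Set V}

omit [LinearOrder V] in
theorem side_side (hq : q ∈ s) (hp : p ∉ s) (x : V) :
    side p q s (side p q s x) = side p q s x := by
  unfold side
  by_cases hx : x ∈ s
  · simp [hx, hq]
  · simp [hx, hp]

omit [LinearOrder V] in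
theorem side_cases (x : V) : side p q s x = p ∨ side p q s x = q := by
  unfold side
  by_cases hx : x ∈ s
  · simp [hx]
  · simp [hx]

omit [LinearOrder V] in
theorem side_adj {G : SimpleGraph V} (hG : G.Adj p q) {x y : V}
    (h : side p q s x ≠ side p q s y) : G.Adj (side p q s x) (side p q s y) := by
  rcases side_cases (p := p) (q := q) (s := s) x with h1 | h1 <;>
    rcases side_cases (p := p) (q := q) (s := s) y with h2 | h2 <;> rw [h1, h2] at h ⊢
  · exact absurd rfl h
  · exact hG
  · exact hG.symm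
  · exact absurd rfl h

theorem gg_of_ne {x y : V} (h : x ≠ side p q s x) : gg p q s x y = side p q s x := by
  unfold gg; simp [h]

theorem gg_of_eq_eq {x y : V} (h : x = side p q s x) (h2 : side p q s y = x) :
    gg p q s x y = y := by
  unfold gg; rw [if_neg (not_not.2 h), if_pos h2]

theorem gg_of_eq_ne {x y : V} (h : x = side p q s x) (h2 : side p q s y ≠ x) :
    gg p q s x y = side p q s y := by
  unfold gg; rw [if_neg (not_not.2 h), if_neg h2]

theorem gg_A (hq : q ∈ s) (hp : p ∉ s) {x y : V} (hxy : x ≠ y) :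
    gg p q s x (gg p q s x y) = gg p q s x y ∧ gg p q s (gg p q s x y) x = x ∧
      gg p q s x y ≠ x := by
  by_cases hx : x = side p q s x
  · by_cases hy : side p q s y = x
    · rw [gg_of_eq_eq hx hy]
      have hy' : y ≠ side p q s y := by rw [hy]; exact hxy.symm
      refine ⟨gg_of_eq_eq hx hy, ?_, hxy.symm⟩
      rw [gg_of_ne hy', hy]
    · rw [gg_of_eq_ne hx hy]
      have h1 := side_side hq hp y
      refine ⟨?_, ?_, hy⟩
      · rw [gg_of_eq_ne hx (by rw [h1]; exact hy), h1]
      · rw [gg_of_eq_ne h1.symm (by rw [← hx]; exact fun h => hy h.symm), ← hx]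
  · have h0 : gg p q s x y = side p q s x := gg_of_ne hx
    rw [h0]
    exact ⟨gg_of_ne hx, gg_of_eq_eq (side_side hq hp x).symm rfl, fun h => hx h.symm⟩

theorem gg_adj {G : SimpleGraph V} (hG : G.Adj p q) {x y : V} (hxy : x ≠ y)
    (hx : x ≠ side p q s x → G.Adj x (side p q s x))
    (hy : y ≠ side p q s y → G.Adj y (side p q s y)) : G.Adj x (gg p q s x y) := by
  by_cases hx1 : x = side p q s x
  · by_cases hy1 : side p q s y = x
    · rw [gg_of_eq_eq hx1 hy1]
      have := hy (by rw [hy1]; exact hxy.symm)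
      rw [hy1] at this
      exact this.symm
    · rw [gg_of_eq_ne hx1 hy1]
      have h : side p q s x ≠ side p q s y := by rw [← hx1]; exact fun h => hy1 h.symm
      have := side_adj hG h
      rw [← hx1] at this
      exact this
  · rw [gg_of_ne hx1]
    exact hx hx1

theorem gg_far {G : SimpleGraph V} (hG : G.Adj p q) {x y : V}
    (hy : y ≠ side p q s y → G.Adj y (side p q s y))
    (hcy : gg p q s x y ≠ y) (hn : ¬ G.Adj y (gg p q s x y)) :
    x ≠ side p q s x ∧ gg p q s x y = side p q s x ∧ y ≠ side p q s y ∧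
      side p q s x ≠ side p q s y := by
  by_cases hx1 : x = side p q s x
  · exfalso
    by_cases hy1 : side p q s y = x
    · exact hcy (gg_of_eq_eq hx1 hy1)
    · rw [gg_of_eq_ne hx1 hy1] at hcy hn
      exact hn (hy hcy.symm)
  · have h1 := gg_of_ne (y := y) hx1
    rw [h1] at hcy hn
    have hy1 : y ≠ side p q s y := by
      intro h
      apply hn
      have h2 : side p q s y ≠ side p q s x := by rw [← h]; exact hcy.symm
      have := side_adj hG h2
      rw [← h] at this
      exact this
    refine ⟨hx1, h1, hy1, ?_⟩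
    intro h
    apply hn
    rw [h]
    exact hy hy1

theorem gg_two {x y : V} (hcy : gg p q s x y ≠ y) (hn : gg p q s x y ≠ gg p q s y x) :
    x ≠ side p q s x ∧ y ≠ side p q s y ∧ gg p q s x y = side p q s x ∧
      gg p q s y x = side p q s y ∧ side p q s x ≠ side p q s y := by
  by_cases hx1 : x = side p q s x
  · exfalso
    by_cases hy1 : side p q s y = x
    · exact hcy (gg_of_eq_eq hx1 hy1)
    · rw [gg_of_eq_ne hx1 hy1] at hcy hn
      exact hn (gg_of_ne hcy.symm).symm
  · have h1 := gg_of_ne (y := y) hx1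
    rw [h1] at hcy hn
    have hy1 : y ≠ side p q s y := by
      intro h
      exact hn (gg_of_eq_ne h hcy).symm
    have h2 := gg_of_ne (y := x) hy1
    rw [h2] at hn
    exact ⟨hx1, hy1, h1, h2, hn⟩

/-- from a centre to a vertex on the other side -/
theorem gg_side (hq : q ∈ s) (hp : p ∉ s) {x y : V} (h : side p q s x ≠ side p q s y) :
    gg p q s (side p q s y) x = side p q s x :=
  gg_of_eq_ne (side_side hq hp y).symm h

end gg

theorem glue (hS : S_STR) : S_GLUE := by
  intro V _ _ G hPEO j p q s fk hpq hq hp hadj hk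
  obtain ⟨hA1, hB, hC, hD, hE, hF, hL, hcl⟩ := hS V G hPEO
  have hpq' : p ≠ q := hpq.ne
  -- the glued function
  let g : V → V → V := gg p q s
  let f : V → V → V := fun x y =>
    if x ∈ K G j ∧ y ∈ K G j then g x y
    else if h : ∃ k, Par G k j ∧ x ∈ H G k ∧ y ∈ H G k ∧ (x ∈ D G k ∨ y ∈ D G k) then
      fk (Classical.choose h) x y else x
  have F1 : ∀ x y, x ∈ K G j → y ∈ K G j → f x y = g x y := by
    intro x y hx hy
    simp only [f]
    rw [if_pos ⟨hx, hy⟩]
  -- elements of `H G k` in `K G j` are in `Q G k`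
  have HQ : ∀ k x, Par G k j → x ∈ H G k → x ∈ K G j → x ∈ Q G k := by
    intro k x hkj hx hxK
    rcases hx with hx | hx
    · exact absurd hxK (hD j k x hkj hx)
    · exact hx
  have QK : ∀ k x, Par G k j → x ∈ Q G k → x ∈ K G j := by
    intro k x hkj hx
    exact (hF j k hkj).2.2 hx
  have QH : ∀ k x, x ∈ Q G k → x ∈ H G k := fun k x hx => Or.inr hx
  have F2 : ∀ k x y, Par G k j → x ∈ H G k → y ∈ H G k → x ≠ y → f x y = fk k x y := by
    intro k x y hkj hx hy hxy
    by_cases hK : x ∈ K G j ∧ y ∈ K G j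
    · rw [F1 x y hK.1 hK.2]
      exact ((hk k hkj).2 x (HQ k x hkj hx hK.1) y (HQ k y hkj hy hK.2) hxy).symm
    · have hex : ∃ k, Par G k j ∧ x ∈ H G k ∧ y ∈ H G k ∧ (x ∈ D G k ∨ y ∈ D G k) := by
        refine ⟨k, hkj, hx, hy, ?_⟩
        by_contra hcon
        push Not at hcon
        apply hK
        constructor
        · rcases hx with hx | hx
          · exact absurd hx hcon.1
          · exact QK k x hkj hx
        · rcases hy with hy | hy
          · exact absurd hy hcon.2
          · exact QK k y hkj hy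
      simp only [f]
      rw [if_neg hK, dif_pos hex]
      have hch := Classical.choose_spec hex
      have hkk : Classical.choose hex = k := by
        set k' := Classical.choose hex with hk'
        by_contra hne
        obtain ⟨h1, h2, h3, h4⟩ := hch
        rcases h4 with h4 | h4
        · rcases hx with hx | hx
          · exact hC j k' k x h1 hkj hne h4 hx
          · exact hD j k' x h1 h4 (QK k x hkj hx)
        · rcases hy with hy | hy
          · exact hC j k' k y h1 hkj hne h4 hy
          · exact hD j k' y h1 h4 (QK k y hkj hy)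
      rw [hkk]
  -- elements of `H G j` are in `K G j` or below a child
  have HK : ∀ x, x ∈ H G j → x ∉ K G j → ∃ k, Par G k j ∧ x ∈ D G k := by
    intro x hx hxK
    rcases hx with hx | hx
    · rcases hE j x hx with h | h
      · exact absurd (Or.inl h) hxK
      · exact h
    · exact absurd (Or.inr hx) hxK
  -- adjacent pairs
  have F3 : ∀ x y, x ∈ H G j → y ∈ H G j → G.Adj x y → (x ∈ K G j ∧ y ∈ K G j) ∨
      ∃ k, Par G k j ∧ x ∈ H G k ∧ y ∈ H G k ∧ (x ∈ D G k ∨ y ∈ D G k) := by
    intro x y hx hy hxy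
    by_cases hxK : x ∈ K G j
    · by_cases hyK : y ∈ K G j
      · exact Or.inl ⟨hxK, hyK⟩
      · obtain ⟨k, hkj, hyD⟩ := HK y hy hyK
        exact Or.inr ⟨k, hkj, hB k y x hyD hxy.symm, Or.inl hyD, Or.inr hyD⟩
    · obtain ⟨k, hkj, hxD⟩ := HK x hx hxK
      exact Or.inr ⟨k, hkj, Or.inl hxD, hB k x y hxD hxy, Or.inl hxD⟩
  -- a common bag
  have F4 : ∀ k x y, x ∈ H G k → y ∈ H G k → G.Adj x y → (x ∈ D G k ∨ y ∈ D G k) →
      ∃ m ∈ D G k, x ∈ K G m ∧ y ∈ K G m := by
    intro k x y hx hy hxy hor
    rcases lt_trichotomy x y with hlt | heq | hlt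
    · have hxD : x ∈ D G k := by
        rcases hor with h | h
        · exact h
        · rcases hx with hx | hx
          · exact hx
          · exact absurd (lt_of_lt_of_le (lt_trans hx.1 hlt) (hL k y h)) (lt_irrefl _)
      exact ⟨x, hxD, Or.inl rfl, Or.inr ⟨hlt, hxy⟩⟩
    · exact absurd heq hxy.ne
    · have hyD : y ∈ D G k := by
        rcases hor with h | h
        · rcases hy with hy | hy
          · exact hy
          · exact absurd (lt_of_lt_of_le (lt_trans hy.1 hlt) (hL k x h)) (lt_irrefl _)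
        · exact h
      exact ⟨y, hyD, Or.inr ⟨hlt, hxy.symm⟩, Or.inl rfl⟩
  -- first part of EdgeOk on `K G j`
  have E1 : ∀ x y, x ∈ K G j → y ∈ K G j → x ≠ y → f x y ∈ H G j →
      f x (f x y) = f x y ∧ f (f x y) x = x := by
    intro x y hx hy hxy hcH
    have hf := F1 x y hx hy
    rw [hf] at hcH ⊢
    have hA := gg_A hq hp (p := p) (q := q) (s := s) hxy
    by_cases hcK : g x y ∈ K G j
    · rw [F1 _ _ hx hcK, F1 _ _ hcK hx]
      exact ⟨hA.1, hA.2.1⟩
    · obtain ⟨k, hkj, hcD⟩ := HK _ hcH hcK
      have hxc : G.Adj x (g x y) := gg_adj hpq hxy (hadj x hx) (hadj y hy)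
      have hxQ : x ∈ Q G k := HQ k x hkj (hB k _ x hcD hxc.symm) hx
      have hcy : g x y ≠ y := fun h => hcK (by rw [h]; exact hy)
      obtain ⟨y', hy'Q, hxy', hgy'⟩ : ∃ y', y' ∈ Q G k ∧ x ≠ y' ∧ g x y' = g x y := by
        by_cases hyc : G.Adj y (g x y)
        · exact ⟨y, HQ k y hkj (hB k _ y hcD hyc.symm) hy, hxy, rfl⟩
        · obtain ⟨h1, h2, h3, h4⟩ := gg_far hpq (hadj y hy) hcy hyc
          have hcd : G.Adj (g x y) (side p q s y) := by
            have := side_adj hpq h4
            rw [← h2] at this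
            exact this
          have hdH : side p q s y ∈ H G k := hB k _ _ hcD hcd
          by_cases hdK : side p q s y ∈ K G j
          · refine ⟨side p q s y, HQ k _ hkj hdH hdK, ?_, ?_⟩
            · intro h
              apply h1
              rw [h]
              exact (side_side hq hp y).symm
            · show gg p q s x (side p q s y) = gg p q s x y
              rw [gg_of_ne h1, h2]
          · have hdD : side p q s y ∈ D G k := by
              rcases hdH with h | h
              · exact h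
              · exact absurd (QK k _ hkj h) hdK
            have hyd := hadj y hy h3
            exact ⟨y, HQ k y hkj (hB k _ y hdD hyd.symm) hy, hxy, rfl⟩
      have hPC := (hk k hkj).1.2.1 x (QH k x hxQ) y' (QH k y' hy'Q)
        (hcl k (Or.inr hxQ) (Or.inr hy'Q) hxy')
      have hfk : fk k x y' = g x y := by
        rw [(hk k hkj).2 x hxQ y' hy'Q hxy']
        exact hgy'
      rw [hfk] at hPC
      have hcHk : g x y ∈ H G k := Or.inl hcD
      have h5 := hPC hcHk
      rw [F2 k x (g x y) hkj (QH k x hxQ) hcHk hA.2.2.symm,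
        F2 k (g x y) x hkj hcHk (QH k x hxQ) hA.2.2]
      exact h5
  have F5 : ∀ k x y, Par G k j → x ∈ H G k → y ∈ H G k → G.Adj x y →
      (x ∈ D G k ∨ y ∈ D G k) → G.Adj x (f x y) := by
    intro k x y hkj hx hy hxy hor
    obtain ⟨m, hmD, hxm, hym⟩ := F4 k x y hx hy hxy hor
    obtain ⟨p', q', s', hpq1, hq1, hp1, hadj1, hprof⟩ := (hk k hkj).1.1 m hmD
    rw [F2 k x y hkj hx hy hxy.ne, hprof x hxm y hym hxy.ne]
    exact gg_adj hpq1 hxy.ne (hadj1 x hxm) (hadj1 y hym)
  -- the case of a value outside of `H G k`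
  have E2 : ∀ k x y, Par G k j → x ∈ H G k → y ∈ H G k → G.Adj x y → (x ∈ D G k ∨ y ∈ D G k) →
      f x y ∉ H G k → x ∈ Q G k ∧ f y x ∈ Q G k ∧ x ≠ f y x ∧ f x (f y x) = f x y ∧
        f (f y x) x = f x y := by
    intro k x y hkj hx hy hxy hor hcH
    have hxc0 := F5 k x y hkj hx hy hxy hor
    have hxD : x ∉ D G k := fun h => hcH (hB k x _ h hxc0)
    have hxQ : x ∈ Q G k := hx.resolve_left hxD
    have hyD : y ∈ D G k := hor.resolve_left hxD
    have hyk := hL k y hyD
    have hxk : k < x := hxQ.1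
    have hxm : x ∈ K G y := Or.inr ⟨lt_of_le_of_lt hyk hxk, hxy.symm⟩
    have hym : y ∈ K G y := Or.inl rfl
    obtain ⟨p', q', s', hpq1, hq1, hp1, hadj1, hprof⟩ := (hk k hkj).1.1 y hyD
    have hne := hxy.ne
    have hf1 : f x y = gg p' q' s' x y := by
      rw [F2 k x y hkj hx hy hne, hprof x hxm y hym hne]
    have hf2 : f y x = gg p' q' s' y x := by
      rw [F2 k y x hkj hy hx hne.symm, hprof y hym x hxm hne.symm]
    have hyc : ¬ G.Adj y (f x y) := fun h => hcH (hB k y _ hyD h)
    have hcy : f x y ≠ y := fun h => hcH (by rw [h]; exact hy)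
    have hcy' : gg p' q' s' x y ≠ y := by rw [← hf1]; exact hcy
    obtain ⟨h1, h2, h3, h4⟩ := gg_far hpq1 (hadj1 y hym) hcy' (by rw [← hf1]; exact hyc)
    have hd : f y x = side p' q' s' y := by rw [hf2, gg_of_ne h3]
    have hc : f x y = side p' q' s' x := by rw [hf1, h2]
    have hyd : G.Adj y (f y x) := by rw [hd]; exact hadj1 y hym h3
    have hcd : G.Adj (f x y) (f y x) := by rw [hd, hc]; exact side_adj hpq1 h4
    have hdH : f y x ∈ H G k := hB k y _ hyD hyd
    have hdD : f y x ∉ D G k := fun h => hcH (hB k _ _ h hcd.symm)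
    have hdQ : f y x ∈ Q G k := hdH.resolve_left hdD
    have hxd : x ≠ f y x := by
      intro h
      apply h1
      rw [h, hd]
      exact (side_side hq1 hp1 y).symm
    have hdm : f y x ∈ K G y := Or.inr ⟨lt_of_le_of_lt hyk hdQ.1, hyd⟩
    refine ⟨hxQ, hdQ, hxd, ?_, ?_⟩
    · rw [F2 k x _ hkj hx hdH hxd, hprof x hxm _ hdm hxd, gg_of_ne h1, hc]
    · rw [F2 k _ x hkj hdH hx hxd.symm, hprof _ hdm x hxm hxd.symm, hc, hd]
      exact gg_side hq1 hp1 h4
  refine ⟨f, ⟨?_, ?_, ?_⟩, hpq, hq, hp, hadj, fun x hx y hy _ => F1 x y hx hy⟩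
  · -- profiles
    intro m hm
    rcases hE j m hm with h | ⟨k, hkj, hmk⟩
    · subst h
      exact ⟨p, q, s, hpq, hq, hp, hadj, fun x hx y hy _ => F1 x y hx hy⟩
    · obtain ⟨p', q', s', hpq1, hq1, hp1, hadj1, hprof⟩ := (hk k hkj).1.1 m hmk
      refine ⟨p', q', s', hpq1, hq1, hp1, hadj1, fun x hx y hy hxy => ?_⟩
      rw [F2 k x y hkj (hA1 k m hmk hx) (hA1 k m hmk hy) hxy]
      exact hprof x hx y hy hxy
  · -- first part
    intro x hx y hy hxy hcH
    rcases F3 x y hx hy hxy with ⟨hxK, hyK⟩ | ⟨k, hkj, hxk, hyk, hor⟩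
    · exact E1 x y hxK hyK hxy.ne hcH
    · have hxc := F5 k x y hkj hxk hyk hxy hor
      by_cases hck : f x y ∈ H G k
      · have h2 := F2 k x y hkj hxk hyk hxy.ne
        have h3 := (hk k hkj).1.2.1 x hxk y hyk hxy (by rw [← h2]; exact hck)
        rw [← h2] at h3
        rw [F2 k x (f x y) hkj hxk hck hxc.ne, F2 k (f x y) x hkj hck hxk hxc.ne.symm]
        exact h3
      · obtain ⟨h1, h2, h3, h4, h5⟩ := E2 k x y hkj hxk hyk hxy hor hck
        have h6 := E1 x (f y x) (QK k x hkj h1) (QK k _ hkj h2) h3 (by rw [h4]; exact hcH)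
        rw [h4] at h6
        exact h6
  · -- second part
    intro x hx y hy hxy hcy hcd hcH hdH
    rcases F3 x y hx hy hxy with ⟨hxK, hyK⟩ | ⟨k, hkj, hxk, hyk, hor⟩
    · have hfc := F1 x y hxK hyK
      have hfd := F1 y x hyK hxK
      rw [hfc] at hcy hcH
      rw [hfd] at hdH
      rw [hfc, hfd] at hcd
      rw [hfc, hfd]
      obtain ⟨h1, h2, h3, h4, h5⟩ := gg_two hcy hcd
      have hxc : G.Adj x (g x y) := by
        show G.Adj x (gg p q s x y)
        rw [h3]; exact hadj x hxK h1
      have hyd : G.Adj y (g y x) := by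
        show G.Adj y (gg p q s y x)
        rw [h4]; exact hadj y hyK h2
      have hcdA : G.Adj (g x y) (g y x) := by
        show G.Adj (gg p q s x y) (gg p q s y x)
        rw [h3, h4]; exact side_adj hpq h5
      have hgdx : g (g y x) x = g x y := by
        show gg p q s (gg p q s y x) x = gg p q s x y
        rw [h3, h4]; exact gg_side hq hp h5
      have hgcy : g (g x y) y = g y x := by
        show gg p q s (gg p q s x y) y = gg p q s y x
        rw [h3, h4]; exact gg_side hq hp h5.symm
      by_cases hcK : g x y ∈ K G j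
      · by_cases hdK : g y x ∈ K G j
        · rw [F1 _ _ hcK hdK]
          show gg p q s (gg p q s x y) (gg p q s y x) = gg p q s y x
          rw [h3, h4]
          have h6 := side_side (p := p) hq hp x
          have h7 := side_side (p := p) hq hp y
          rw [gg_of_eq_ne h6.symm (by rw [h7]; exact h5.symm), h7]
        · obtain ⟨k, hkj, hdD⟩ := HK _ hdH hdK
          have hcQ : g x y ∈ Q G k := HQ k _ hkj (hB k _ _ hdD hcdA.symm) hcK
          have hyQ : y ∈ Q G k := HQ k _ hkj (hB k _ _ hdD hyd.symm) hyK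
          have hcy' : g x y ≠ y := hcy
          have h6 : fk k (g x y) y = g y x := by
            rw [(hk k hkj).2 _ hcQ y hyQ hcy']
            exact hgcy
          have h7 := (hk k hkj).1.2.1 _ (QH k _ hcQ) y (QH k y hyQ)
            (hcl k (Or.inr hcQ) (Or.inr hyQ) hcy') (by rw [h6]; exact Or.inl hdD)
          rw [h6] at h7
          rw [F2 k _ _ hkj (QH k _ hcQ) (Or.inl hdD) hcd]
          exact h7.1
      · obtain ⟨k, hkj, hcD⟩ := HK _ hcH hcK
        have hxQ : x ∈ Q G k := HQ k _ hkj (hB k _ _ hcD hxc.symm) hxK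
        have hdHk : g y x ∈ H G k := hB k _ _ hcD hcdA
        rw [F2 k _ _ hkj (Or.inl hcD) hdHk hcd]
        rcases hdHk with hdD | hdQ
        · have hyQ : y ∈ Q G k := HQ k _ hkj (hB k _ _ hdD hyd.symm) hyK
          have h6 : fk k x y = g x y := (hk k hkj).2 x hxQ y hyQ hxy.ne
          have h7 : fk k y x = g y x := (hk k hkj).2 y hyQ x hxQ hxy.ne.symm
          have h8 := (hk k hkj).1.2.2 x (QH k x hxQ) y (QH k y hyQ) hxy
            (by rw [h6]; exact hcy) (by rw [h6, h7]; exact hcd) (by rw [h6]; exact Or.inl hcD)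
            (by rw [h7]; exact Or.inl hdD)
          rw [h6, h7] at h8
          exact h8
        · have hdx : g y x ≠ x := by
            intro h
            apply h1
            have h9 : side p q s y = x := h4.symm.trans h
            rw [← h9]
            exact (side_side hq hp y).symm
          have h6 : fk k (g y x) x = g x y := by
            rw [(hk k hkj).2 _ hdQ x hxQ hdx]
            exact hgdx
          have h7 := (hk k hkj).1.2.1 _ (QH k _ hdQ) x (QH k x hxQ)
            (hcl k (Or.inr hdQ) (Or.inr hxQ) hdx) (by rw [h6]; exact Or.inl hcD)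
          rw [h6] at h7
          exact h7.2
    · have hxc := F5 k x y hkj hxk hyk hxy hor
      have hyd := F5 k y x hkj hyk hxk hxy.symm hor.symm
      by_cases hck : f x y ∈ H G k
      · by_cases hdk : f y x ∈ H G k
        · have h2 := F2 k x y hkj hxk hyk hxy.ne
          have h3 := F2 k y x hkj hyk hxk hxy.ne.symm
          have h4 := (hk k hkj).1.2.2 x hxk y hyk hxy (by rw [← h2]; exact hcy)
            (by rw [← h2, ← h3]; exact hcd) (by rw [← h2]; exact hck) (by rw [← h3]; exact hdk)
          rw [← h2, ← h3] at h4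
          rw [F2 k _ _ hkj hck hdk hcd]
          exact h4
        · obtain ⟨h1, h2, h3, h4, h5⟩ := E2 k y x hkj hyk hxk hxy.symm hor.symm hdk
          have h6 := E1 (f x y) y (QK k _ hkj h2) (QK k _ hkj h1) h3.symm (by rw [h5]; exact hdH)
          rw [h5] at h6
          exact h6.1
      · obtain ⟨h1, h2, h3, h4, h5⟩ := E2 k x y hkj hxk hyk hxy hor hck
        have h6 := E1 (f y x) x (QK k _ hkj h2) (QK k _ hkj h1) h3.symm (by rw [h5]; exact hcH)
        rw [h5] at h6
        exact h6.2

end Pool.Agent.W494.T3
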